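import Pool.Agent.Helper252_Enum.V5_final

set_option autoImplicit false

open Filter Topology

namespace Pool.Agent.Results.MP_9de0a1_al.AlmostAllNilpotent

/-- Isomorphism of two group structures on `Fin N`. -/
def Isom (N : ℕ) (g h : Group (Fin N)) : Prop :=
  Nonempty (@MulEquiv (Fin N) (Fin N)
    (@Semigroup.toMul _ (@Monoid.toSemigroup _ (@DivInvMonoid.toMonoid _ (@Group.toDivInvMonoid _ g))))
    (@Semigroup.toMul _ (@Monoid.toSemigroup _ (@DivInvMonoid.toMonoid _ (@Group.toDivInvMonoid _ h)))))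

/-- The number of isomorphism classes of groups of order `N`. -/
noncomputable def numGroups (N : ℕ) : ℕ := Nat.card (Quot (Isom N))

/-- The number of isomorphism classes of nilpotent groups of order `N`. -/
noncomputable def numNilpotent (N : ℕ) : ℕ :=
  Nat.card {c : Quot (Isom N) // ∃ g : Group (Fin N), Quot.mk (Isom N) g = c ∧
    @Group.IsNilpotent (Fin N) g}

/-- The number of nilpotent groups of order at most `n`, up to isomorphism. -/
noncomputable def nilpotentUpTo (n : ℕ) : ℝ := ∑ m ∈ Finset.Icc 1 n, (numNilpotent m : ℝ)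

/-- The number of groups whose order is a power of `2` and at most `n`, up to isomorphism. -/
noncomputable def twoGroupsUpTo (n : ℕ) : ℝ :=
  ∑ k ∈ (Finset.range (n + 1)).filter (fun k => 2 ^ k ≤ n), (numGroups (2 ^ k) : ℝ)

/-- Almost all finite nilpotent groups are `2`-groups: the proportion of the `2`-groups among the
nilpotent groups of order at most `n` tends to `1`; for all large `n` the number of the others is at
most `2 ^ (-(log₂ n)² / 200)` times the number of the `2`-groups (`log₂ n` rounded down). -/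
theorem result :
    Tendsto (fun n : ℕ => twoGroupsUpTo n / nilpotentUpTo n) atTop (𝓝 1) ∧
    ∃ n₀ : ℕ, ∀ n : ℕ, n₀ ≤ n → nilpotentUpTo n - twoGroupsUpTo n ≤
      (2 : ℝ) ^ (-((Nat.log 2 n : ℝ) ^ 2 / 200)) * twoGroupsUpTo n := by
  refine ⟨Pool.Agent.Helper252_Enum.ratio_two, ?_⟩
  obtain ⟨k₀, h⟩ := Pool.Agent.Helper252_Enum.totNil_le
  refine ⟨2 ^ k₀, fun n hn => ?_⟩
  have hn0 : n ≠ 0 := by
    have : 0 < 2 ^ k₀ := by positivity
    omega
  have h1 := h n (Nat.le_log_of_pow_le (by norm_num) hn) hn0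
  have h2 := Pool.Agent.Helper252_Enum.le_totTwo n hn0
  have h3 : (0 : ℝ) ≤ (2 : ℝ) ^ (-((Nat.log 2 n : ℝ) ^ 2 / 200)) := by positivity
  have h4 := mul_le_mul_of_nonneg_left h2 h3
  change Pool.Agent.Helper252_Enum.totNil n - Pool.Agent.Helper252_Enum.totTwo n ≤
    (2 : ℝ) ^ (-((Nat.log 2 n : ℝ) ^ 2 / 200)) * Pool.Agent.Helper252_Enum.totTwo n
  linarith

end Pool.Agent.Results.MP_9de0a1_al.AlmostAllNilpotent
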