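import Pool.Agent.Helper252_Enum.V6_asymp

set_option autoImplicit false

open Filter Topology

namespace Pool.Agent.Results.MP_9de0a1_al.NilpotentAsymptotics

/-- Isomorphism of two group structures on `Fin N`. -/
def Isom (N : ℕ) (g h : Group (Fin N)) : Prop :=
  Nonempty (@MulEquiv (Fin N) (Fin N)
    (@Semigroup.toMul _ (@Monoid.toSemigroup _ (@DivInvMonoid.toMonoid _ (@Group.toDivInvMonoid _ g))))
    (@Semigroup.toMul _ (@Monoid.toSemigroup _ (@DivInvMonoid.toMonoid _ (@Group.toDivInvMonoid _ h)))))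

/-- The number of isomorphism classes of nilpotent groups of order `N`. -/
noncomputable def numNilpotent (N : ℕ) : ℕ :=
  Nat.card {c : Quot (Isom N) // ∃ g : Group (Fin N), Quot.mk (Isom N) g = c ∧
    @Group.IsNilpotent (Fin N) g}

/-- The number of nilpotent groups of order at most `n`, up to isomorphism. -/
noncomputable def nilpotentUpTo (n : ℕ) : ℝ := ∑ m ∈ Finset.Icc 1 n, (numNilpotent m : ℝ)

/-- `(2 ^ N - 1) (2 ^ N - 2) ... (2 ^ N - 2 ^ (r - 1))`, the number of injective linear maps from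
`F_2 ^ r` to `F_2 ^ N`; for `r = N` the order of `GL_N(2)`. -/
def inj (N r : ℕ) : ℕ := ∏ i ∈ Finset.range r, (2 ^ N - 2 ^ i)

/-- The sum over all `r` with `19 k / 60 ≤ r ≤ 21 k / 60` of the number of `r`-dimensional subspaces
of `F_2 ^ (m (m + 1) / 2)`, `m = k - r`, divided by the order of `GL_m(2)`. -/
noncomputable def mainTerm (k : ℕ) : ℝ :=
  ∑ r ∈ (Finset.range (k + 1)).filter (fun r => 19 * k ≤ 60 * r ∧ 60 * r ≤ 21 * k),
    (inj ((k - r) * (k - r + 1) / 2) r : ℝ) / (inj (k - r) (k - r) * inj r r)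

/-- The number of nilpotent groups of order at most `n` is asymptotic to `mainTerm k`, where
`k = ⌊log₂ n⌋`. -/
theorem result :
    Tendsto (fun n : ℕ => mainTerm (Nat.log 2 n) / nilpotentUpTo n) atTop (𝓝 1) := by
  have h : ∀ k : ℕ, mainTerm k = Pool.Agent.Helper252_Enum.AA 2 k := by
    intro k
    unfold mainTerm Pool.Agent.Helper252_Enum.AA inj Pool.Agent.Helper252_Enum.gl
      Pool.Agent.Helper252_Enum.SS
    rfl
  simp only [h]
  exact Pool.Agent.Helper252_Enum.totNil_asymp

end Pool.Agent.Results.MP_9de0a1_al.NilpotentAsymptotics
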